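import Mathlib

set_option autoImplicit false

namespace Pool.Agent.Helper42.QMeas

open Filter Topology

/-- A `[0,1]`-valued measure on `P(ω)`: finitely additive, zero on finite sets. -/
structure IsMeas (μ : Set ℕ → ℝ) : Prop where
  nonneg : ∀ A, 0 ≤ μ A
  le_one : ∀ A, μ A ≤ 1
  union : ∀ A B, Disjoint A B → μ (A ∪ B) = μ A + μ B
  finite : ∀ A, A.Finite → μ A = 0

/-- `P` is a partition of `ω` into finite sets. -/
def IsFinPartition (P : ℕ → Set ℕ) : Prop :=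
  (∀ n, (P n).Finite) ∧ (∀ m n, m ≠ n → Disjoint (P m) (P n)) ∧ (⋃ n, P n) = Set.univ

/-- `A` is a selector of `P`. -/
def IsSelector (P : ℕ → Set ℕ) (A : Set ℕ) : Prop := ∀ n, (A ∩ P n).Subsingleton

/-- `μ` is an `ε`-strong `Q`-measure. -/
def IsStrongQ (ε : ℝ) (μ : Set ℕ → ℝ) : Prop :=
  IsMeas μ ∧ ∀ P, IsFinPartition P → ∃ A, IsSelector P A ∧ ε ≤ μ A

/-- `f` is a bounded real sequence. -/
def IsBdd (f : ℕ → ℝ) : Prop := ∃ b : ℝ, ∀ n, |f n| ≤ b

/-- `I` is the integral with respect to `μ`, that is, the element of `ℓ_∞*` identified with the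
finitely additive measure `μ`: a bounded linear functional on bounded sequences whose value on the
indicator sequence of `A` is `μ A`, for every `A`. -/
structure IsIntegral (μ : Set ℕ → ℝ) (I : (ℕ → ℝ) → ℝ) : Prop where
  add : ∀ f g, IsBdd f → IsBdd g → I (fun n => f n + g n) = I f + I g
  smul : ∀ (c : ℝ) (f), IsBdd f → I (fun n => c * f n) = c * I f
  bound : ∃ C : ℝ, ∀ (f : ℕ → ℝ) (b : ℝ), (∀ n, |f n| ≤ b) → |I f| ≤ C * b
  indicator : ∀ A : Set ℕ, I (A.indicator fun _ => 1) = μ A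

section
variable {X : Type*} [NormedAddCommGroup X] [NormedSpace ℝ X]

/-- `(x n)` is an `L`-orthogonal sequence in the closed unit ball of `X`. -/
def IsLOrthogonal (x : ℕ → X) : Prop :=
  (∀ n, ‖x n‖ ≤ 1) ∧ ∀ y : X, Tendsto (fun n => ‖y + x n‖) atTop (𝓝 (1 + ‖y‖))

variable (X) in
/-- the bidual `X**` -/
abbrev Bidual := StrongDual ℝ (StrongDual ℝ X)

/-- the norm of the bidual -/
noncomputable def bnorm (g : Bidual X) : ℝ := ‖g‖

/-- `G = y + g` in `X**`, where `y` in `X` is viewed in `X**` canonically (`y φ = φ y`). -/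
def IsSum (y : X) (g G : Bidual X) : Prop := ∀ φ : StrongDual ℝ X, G φ = φ y + g φ

/-- `g` is the `μ`-limit of `(x n)` in the bidual, `g = T** μ` for `T : ℓ₁ → X`, `e_n ↦ x n`:
`g φ` is the integral of `n ↦ φ (x n)` with respect to `μ`. -/
def IsMuLim (μ : Set ℕ → ℝ) (x : ℕ → X) (g : Bidual X) : Prop :=
  ∃ I : (ℕ → ℝ) → ℝ, IsIntegral μ I ∧ ∀ φ : StrongDual ℝ X, g φ = I (fun n => φ (x n))

variable (X) in
/-- The inequality `‖y + μ-lim x‖ ≥ ‖y‖ + c ‖μ-lim x‖` for all `L`-orthogonal sequences of `X`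
and all `y` in `X`. -/
def InequalityIn (μ : Set ℕ → ℝ) (c : ℝ) : Prop :=
  ∀ (x : ℕ → X) (g G : Bidual X) (y : X), IsLOrthogonal x → IsMuLim μ x g → IsSum y g G →
    ‖y‖ + c * bnorm g ≤ bnorm G

end

/-- The inequality `‖y + μ-lim x‖ ≥ ‖y‖ + κ(ε) ‖μ-lim x‖` for all `ε > 0`, all `ε`-strong
`Q`-measures, all Banach spaces, all `L`-orthogonal sequences and all `y`.
The question is about `κ(ε) = ε`. -/
def Inequality (κ : ℝ → ℝ) : Prop :=
  ∀ ε : ℝ, 0 < ε → ∀ μ : Set ℕ → ℝ, IsStrongQ ε μ →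
    ∀ (X : Type) [NormedAddCommGroup X] [NormedSpace ℝ X] [CompleteSpace X],
      InequalityIn X μ (κ ε)

end Pool.Agent.Helper42.QMeas
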