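import Pool.Agent.Helper42.QMeas.Defs

set_option autoImplicit false

namespace Pool.Agent.Helper42.QMeas

open Filter Topology

/-- The Banach space of bounded real sequences. -/
abbrev Linf := lp (fun _ : ℕ => ℝ) ⊤

/-- The functional `m` on bounded sequences takes the value `μ A` on the indicator sequence of
every `A`. -/
def Represents (m : StrongDual ℝ Linf) (μ : Set ℕ → ℝ) : Prop :=
  ∀ (A : Set ℕ) (f : Linf), (∀ n, f n = A.indicator (fun _ => (1 : ℝ)) n) → m f = μ A

open Classical in
/-- a functional on `ℓ_∞` as a function on all sequences -/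
noncomputable def toInt (m : StrongDual ℝ Linf) (f : ℕ → ℝ) : ℝ :=
  if h : BddAbove (Set.range fun n => ‖f n‖) then m ⟨f, memℓp_infty h⟩ else 0

theorem bdd_of_isBdd {f : ℕ → ℝ} (h : IsBdd f) : BddAbove (Set.range fun n => ‖f n‖) := by
  obtain ⟨b, hb⟩ := h
  refine ⟨b, ?_⟩
  rintro _ ⟨n, rfl⟩
  exact hb n

theorem toInt_eq (m : StrongDual ℝ Linf) (f : ℕ → ℝ) (h : BddAbove (Set.range fun n => ‖f n‖)) :
    toInt m f = m ⟨f, memℓp_infty h⟩ := by
  unfold toInt
  rw [dif_pos h]

theorem toInt_coe (m : StrongDual ℝ Linf) (F : Linf) : toInt m (F : ℕ → ℝ) = m F := by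
  rw [toInt_eq m _ ⟨‖F‖, by
    rintro _ ⟨n, rfl⟩
    exact lp.norm_apply_le_norm (by simp) F _⟩]

theorem toInt_isIntegral {m : StrongDual ℝ Linf} {μ : Set ℕ → ℝ} (h : Represents m μ) :
    IsIntegral μ (toInt m) where
  add := fun f g hf hg => by
    have hf' := bdd_of_isBdd hf
    have hg' := bdd_of_isBdd hg
    have hfg : BddAbove (Set.range fun n => ‖f n + g n‖) := by
      obtain ⟨b, hb⟩ := hf
      obtain ⟨b', hb'⟩ := hg
      refine ⟨b + b', ?_⟩
      rintro _ ⟨n, rfl⟩
      exact (norm_add_le _ _).trans (add_le_add (hb n) (hb' n))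
    rw [toInt_eq m _ hf', toInt_eq m _ hg', toInt_eq m _ hfg, ← map_add]
    rfl
  smul := fun c f hf => by
    have hf' := bdd_of_isBdd hf
    have hcf : BddAbove (Set.range fun n => ‖c * f n‖) := by
      obtain ⟨b, hb⟩ := hf
      refine ⟨‖c‖ * b, ?_⟩
      rintro _ ⟨n, rfl⟩
      simp only [norm_mul]
      exact mul_le_mul_of_nonneg_left (hb n) (norm_nonneg _)
    rw [toInt_eq m _ hf', toInt_eq m _ hcf, ← smul_eq_mul, ← map_smul]
    rfl
  bound := ⟨‖m‖, fun f b hb => by
    have hf' := bdd_of_isBdd ⟨b, hb⟩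
    rw [toInt_eq m _ hf']
    have hb0 : 0 ≤ b := (abs_nonneg _).trans (hb 0)
    refine (m.le_opNorm _).trans ?_
    apply mul_le_mul_of_nonneg_left _ (norm_nonneg _)
    exact lp.norm_le_of_forall_le hb0 hb⟩
  indicator := fun A => by
    have hA : BddAbove (Set.range fun n => ‖A.indicator (fun _ => (1 : ℝ)) n‖) := by
      refine ⟨1, ?_⟩
      rintro _ ⟨n, rfl⟩
      by_cases hn : n ∈ A
      · simp [hn]
      · simp [hn]
    rw [toInt_eq m _ hA]
    exact h A _ (fun n => rfl)

theorem IsMeas.empty {μ : Set ℕ → ℝ} (h : IsMeas μ) : μ ∅ = 0 := h.finite _ Set.finite_empty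

theorem IsMeas.mono {μ : Set ℕ → ℝ} (h : IsMeas μ) {A B : Set ℕ} (hAB : A ⊆ B) : μ A ≤ μ B := by
  have h1 := h.union A (B \ A) Set.disjoint_sdiff_right
  rw [Set.union_sdiff_cancel hAB] at h1
  linarith [h.nonneg (B \ A)]

section functional
open Classical in
/-- class code of a point -/
noncomputable def code (F : Finset (Set ℕ)) (i : ℕ) : Finset (Set ℕ) := F.filter (fun A => i ∈ A)

/-- class of a code -/
def cls (F S : Finset (Set ℕ)) : Set ℕ := {i | code F i = S}

open Classical in
/-- representative of a class -/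
noncomputable def rep (F S : Finset (Set ℕ)) : ℕ := if h : (cls F S).Nonempty then h.some else 0

theorem rep_mem (F S : Finset (Set ℕ)) (h : (cls F S).Nonempty) : rep F S ∈ cls F S := by
  unfold rep
  rw [dif_pos h]
  exact h.some_mem

theorem partition_aux {ν : Set ℕ → ℝ} (h : IsMeas ν) (F : Finset (Set ℕ)) (A : Set ℕ)
    (T : Finset (Finset (Set ℕ))) :
    ν (A ∩ {i | code F i ∈ T}) = ∑ S ∈ T, ν (A ∩ cls F S) := by
  classical
  induction T using Finset.induction_on with
  | empty => simp [h.empty]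
  | insert S T hS ih =>
    rw [Finset.sum_insert hS, ← ih]
    have e1 : A ∩ {i | code F i ∈ insert S T} =
        (A ∩ cls F S) ∪ (A ∩ {i | code F i ∈ T}) := by
      ext i
      simp only [cls, Set.mem_inter_iff, Set.mem_ofPred_eq, Finset.mem_insert, Set.mem_union]
      tauto
    rw [e1]
    apply h.union
    rw [Set.disjoint_left]
    rintro i ⟨_, hi⟩ ⟨_, hi'⟩
    simp only [cls, Set.mem_ofPred_eq] at hi hi'
    rw [hi] at hi'
    exact hS hi'

theorem partition {ν : Set ℕ → ℝ} (h : IsMeas ν) (F : Finset (Set ℕ)) (A : Set ℕ) :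
    ∑ S ∈ F.powerset, ν (A ∩ cls F S) = ν A := by
  rw [← partition_aux h]
  congr 1
  ext i
  simp only [Set.mem_inter_iff, Set.mem_ofPred_eq, Finset.mem_powerset, and_iff_left_iff_imp]
  intro _
  classical
  unfold code
  exact Finset.filter_subset _ _

/-- approximate integral -/
noncomputable def mF (ν : Set ℕ → ℝ) (h : IsMeas ν) (F : Finset (Set ℕ)) : StrongDual ℝ Linf :=
  LinearMap.mkContinuous
    { toFun := fun f => ∑ S ∈ F.powerset, ν (cls F S) * f (rep F S)
      map_add' := by
        intro f g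
        rw [← Finset.sum_add_distrib]
        apply Finset.sum_congr rfl
        intro S _
        rw [lp.coeFn_add, Pi.add_apply]; ring
      map_smul' := by
        intro c f
        rw [RingHom.id_apply, smul_eq_mul, Finset.mul_sum]
        apply Finset.sum_congr rfl
        intro S _
        rw [lp.coeFn_smul, Pi.smul_apply, smul_eq_mul]; ring }
    (ν Set.univ) (by
      intro f
      have hp := partition h F Set.univ
      simp only [Set.univ_inter] at hp
      simp only [LinearMap.coe_mk, AddHom.coe_mk]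
      calc ‖∑ S ∈ F.powerset, ν (cls F S) * f (rep F S)‖
          ≤ ∑ S ∈ F.powerset, ‖ν (cls F S) * f (rep F S)‖ := norm_sum_le _ _
        _ ≤ ∑ S ∈ F.powerset, ν (cls F S) * ‖f‖ := by
            apply Finset.sum_le_sum
            intro S _
            rw [norm_mul, Real.norm_of_nonneg (h.nonneg _)]
            exact mul_le_mul_of_nonneg_left (lp.norm_apply_le_norm (by simp) f _) (h.nonneg _)
        _ = ν Set.univ * ‖f‖ := by rw [← Finset.sum_mul, hp])

theorem mF_apply (ν : Set ℕ → ℝ) (h : IsMeas ν) (F : Finset (Set ℕ)) (f : Linf) :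
    mF ν h F f = ∑ S ∈ F.powerset, ν (cls F S) * f (rep F S) := rfl

theorem mF_norm (ν : Set ℕ → ℝ) (h : IsMeas ν) (F : Finset (Set ℕ)) : ‖mF ν h F‖ ≤ ν Set.univ :=
  LinearMap.mkContinuous_norm_le _ (h.nonneg _) _

theorem mF_indicator (ν : Set ℕ → ℝ) (h : IsMeas ν) (F : Finset (Set ℕ)) (A : Set ℕ)
    (hA : A ∈ F) (f : Linf) (hf : ∀ n, f n = A.indicator (fun _ => (1 : ℝ)) n) :
    mF ν h F f = ν A := by
  classical
  rw [mF_apply, ← partition h F A]
  apply Finset.sum_congr rfl
  intro S _
  rw [hf]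
  by_cases hne : (cls F S).Nonempty
  · have hr := rep_mem F S hne
    have hiff : ∀ i ∈ cls F S, (i ∈ A ↔ A ∈ S) := by
      intro i hi
      simp only [cls, Set.mem_ofPred_eq] at hi
      rw [← hi]
      simp [code, hA]
    by_cases hAS : A ∈ S
    · have h1 : rep F S ∈ A := (hiff _ hr).2 hAS
      have h2 : A ∩ cls F S = cls F S := by
        apply Set.inter_eq_right.2
        intro i hi
        exact (hiff i hi).2 hAS
      rw [Set.indicator_of_mem h1, h2, mul_one]
    · have h1 : rep F S ∉ A := fun hh => hAS ((hiff _ hr).1 hh)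
      have h2 : A ∩ cls F S = ∅ := by
        rw [← Set.disjoint_iff_inter_eq_empty, Set.disjoint_left]
        intro i hi hi'
        exact hAS ((hiff i hi').1 hi)
      rw [Set.indicator_of_notMem h1, h2, h.empty, mul_zero]
  · rw [Set.not_nonempty_iff_eq_empty] at hne
    rw [hne, Set.inter_empty, h.empty, zero_mul]

theorem exists_functional {ν : Set ℕ → ℝ} (h : IsMeas ν) :
    ∃ m : StrongDual ℝ Linf, Represents m ν ∧ ‖m‖ ≤ ν Set.univ := by
  have hc := WeakDual.isCompact_closedBall (𝕜 := ℝ) (E := Linf) 0 (ν Set.univ)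
  let U : Ultrafilter (Finset (Set ℕ)) := Ultrafilter.of atTop
  let w : Finset (Set ℕ) → WeakDual ℝ Linf := fun F => StrongDual.toWeakDual (mF ν h F)
  obtain ⟨m, hm, hlim⟩ := hc.ultrafilter_le_nhds (U.map w) (by
    rw [le_principal_iff, Ultrafilter.coe_map, mem_map]
    apply univ_mem'
    intro F
    simp only [Set.mem_preimage, Metric.mem_closedBall, dist_zero_right]
    exact mF_norm ν h F)
  refine ⟨WeakDual.toStrongDual m, ?_, ?_⟩
  · intro A f hf
    have ht : Tendsto (fun F => mF ν h F f) U (𝓝 (m f)) := by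
      have h1 : Tendsto w U (𝓝 m) := hlim
      exact ((WeakDual.eval_continuous f).tendsto m).comp h1
    have hev : ∀ᶠ F in (U : Filter (Finset (Set ℕ))), mF ν h F f = ν A := by
      have h2 : ∀ᶠ F in (atTop : Filter (Finset (Set ℕ))), mF ν h F f = ν A := by
        filter_upwards [eventually_ge_atTop {A}] with F hF
        exact mF_indicator ν h F A (hF (by simp)) f hf
      exact (Ultrafilter.of_le atTop) h2
    have ht2 : Tendsto (fun F => mF ν h F f) U (𝓝 (ν A)) :=
      (tendsto_const_nhds).congr' (hev.mono (fun _ hx => hx.symm))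
    exact tendsto_nhds_unique ht ht2
  · simpa only [Set.mem_preimage, Metric.mem_closedBall, dist_zero_right] using hm

end functional

end Pool.Agent.Helper42.QMeas
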