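import Pool.Agent.Helper42.QMeas.Functional

set_option autoImplicit false

namespace Pool.Agent.Helper42.QMeas

open Filter Topology

/-- composition with a reindexing -/
noncomputable def compL (σ : ℕ → ℕ) : Linf →L[ℝ] Linf :=
  LinearMap.mkContinuous
    { toFun := fun f => ⟨fun n => f (σ n), memℓp_infty ⟨‖f‖, by
        rintro _ ⟨n, rfl⟩
        exact lp.norm_apply_le_norm (by simp) f _⟩⟩
      map_add' := by intro f g; ext n; rfl
      map_smul' := by intro c f; ext n; rfl }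
    1 (by
      intro f
      rw [one_mul]
      apply lp.norm_le_of_forall_le (norm_nonneg _)
      intro n
      exact lp.norm_apply_le_norm (by simp) f _)

theorem compL_apply (σ : ℕ → ℕ) (f : Linf) (n : ℕ) : compL σ f n = f (σ n) := rfl

section
variable {X : Type*} [NormedAddCommGroup X] [NormedSpace ℝ X]

/-- adjoint of `ℓ₁ → X`, `e_n ↦ x n` -/
noncomputable def Tstar (x : ℕ → X) (hx : ∀ n, ‖x n‖ ≤ 1) : StrongDual ℝ X →L[ℝ] Linf :=
  have hb : ∀ (φ : StrongDual ℝ X) n, ‖φ (x n)‖ ≤ ‖φ‖ := fun φ n =>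
    (φ.le_opNorm (x n)).trans (by
      calc ‖φ‖ * ‖x n‖ ≤ ‖φ‖ * 1 := by gcongr; exact hx n
        _ = ‖φ‖ := mul_one _)
  LinearMap.mkContinuous
    { toFun := fun φ => ⟨fun n => φ (x n), memℓp_infty ⟨‖φ‖, by
        rintro _ ⟨n, rfl⟩
        exact hb φ n⟩⟩
      map_add' := by intro f g; ext n; rfl
      map_smul' := by intro c f; ext n; rfl }
    1 (by
      intro φ
      rw [one_mul]
      apply lp.norm_le_of_forall_le (norm_nonneg _)
      intro n
      exact hb φ n)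

theorem Tstar_apply (x : ℕ → X) (hx : ∀ n, ‖x n‖ ≤ 1) (φ : StrongDual ℝ X) (n : ℕ) :
    Tstar x hx φ n = φ (x n) := rfl

end

abbrev l1 := lp (fun _ : ℕ => ℝ) 1

theorem l1_norm (f : l1) : ‖f‖ = ∑' i, |f i| := by
  rw [lp.norm_eq_tsum_rpow (by norm_num)]
  simp

theorem l1_summable (f : l1) : Summable fun i => |f i| := by
  have := (lp.memℓp f).summable (by norm_num)
  simpa using this

/-- unit vectors -/
noncomputable def e (k : ℕ) : l1 := lp.single 1 k (1 : ℝ)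

theorem norm_e (k : ℕ) : ‖e k‖ = 1 := by
  unfold e
  rw [lp.norm_single (by norm_num)]
  simp

theorem e_self (k : ℕ) : e k k = 1 := by
  unfold e; simp

theorem e_ne (k i : ℕ) (h : i ≠ k) : e k i = 0 := by
  unfold e
  rw [lp.coeFn_single, Pi.single_eq_of_ne h]

theorem norm_add_e_lower (f : l1) (k : ℕ) (s : ℝ) (hs : |s| = 1) :
    ‖f‖ + 1 - 2 * |f k| ≤ ‖f + s • e k‖ := by
  rw [l1_norm, l1_norm]
  rw [(l1_summable f).tsum_eq_add_tsum_ite k, (l1_summable (f + s • e k)).tsum_eq_add_tsum_ite k]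
  have h1 : (∑' i, if i = k then 0 else |(f + s • e k : l1) i|) = ∑' i, if i = k then 0 else |f i| := by
    congr 1
    funext i
    by_cases hi : i = k
    · simp [hi]
    · rw [if_neg hi, if_neg hi, lp.coeFn_add, Pi.add_apply, lp.coeFn_smul, Pi.smul_apply,
        e_ne k i hi, smul_zero, add_zero]
  rw [h1]
  have h2 : (f + s • e k : l1) k = f k + s := by
    rw [lp.coeFn_add, Pi.add_apply, lp.coeFn_smul, Pi.smul_apply, e_self, smul_eq_mul, mul_one]
  rw [h2]
  have h3 : |s| ≤ |f k + s| + |f k| := by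
    have := abs_sub (f k + s) (f k)
    rwa [add_sub_cancel_left] at this
  linarith

/-- the `L`-orthogonal sequence in `ℓ₁ ⊕_∞ ℓ₁` -/
noncomputable def xs (n : ℕ) : l1 × l1 :=
  ((if n % 2 = 0 then (1 : ℝ) else -1) • e (n / 2), (1 : ℝ) • e (n / 2))

theorem sgn_abs (n : ℕ) : |(if n % 2 = 0 then (1 : ℝ) else -1)| = 1 := by
  split_ifs <;> simp

theorem norm_smul_e (s : ℝ) (hs : |s| = 1) (k : ℕ) : ‖s • e k‖ = 1 := by
  rw [norm_smul, norm_e, Real.norm_eq_abs, hs, mul_one]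

theorem norm_xs (n : ℕ) : ‖xs n‖ = 1 := by
  unfold xs
  rw [Prod.norm_def]
  simp only
  rw [norm_smul_e _ (sgn_abs n), norm_smul_e _ (by simp), max_self]

theorem xs_LOrth : IsLOrthogonal xs := by
  refine ⟨fun n => (norm_xs n).le, fun y => ?_⟩
  have hdiv : Tendsto (fun n : ℕ => n / 2) atTop atTop := by
    apply tendsto_atTop_atTop.2
    intro b
    exact ⟨2 * b, fun a ha => by omega⟩
  have hz : ∀ f : l1, Tendsto (fun n : ℕ => ‖f‖ + 1 - 2 * |f (n / 2)|) atTop (𝓝 (‖f‖ + 1)) := by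
    intro f
    have h1 := (l1_summable f).tendsto_atTop_zero
    have h2 := (h1.comp hdiv).const_mul (2 : ℝ)
    rw [mul_zero] at h2
    have h3 := h2.const_sub (‖f‖ + 1)
    rw [sub_zero] at h3
    exact h3
  have hlow : Tendsto (fun n : ℕ => max (‖y.1‖ + 1 - 2 * |y.1 (n / 2)|)
      (‖y.2‖ + 1 - 2 * |y.2 (n / 2)|)) atTop (𝓝 (1 + ‖y‖)) := by
    have := (hz y.1).max (hz y.2)
    rwa [max_add_add_right, ← Prod.norm_def, add_comm ‖y‖ 1] at this
  refine tendsto_of_tendsto_of_tendsto_of_le_of_le hlow tendsto_const_nhds ?_ ?_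
  · intro n
    simp only
    rw [Prod.norm_def (y + xs n)]
    apply max_le_max
    · exact norm_add_e_lower y.1 (n / 2) _ (sgn_abs n)
    · exact norm_add_e_lower y.2 (n / 2) 1 (by simp)
  · intro n
    simp only
    rw [add_comm 1, ← norm_xs n]
    exact norm_add_le _ _

/-- weighted copy of `ν` on the even and on the odd numbers -/
noncomputable def mix (δ : ℝ) (ν : Set ℕ → ℝ) (A : Set ℕ) : ℝ :=
  (1 - δ) * ν {k | 2 * k ∈ A} + δ * ν {k | 2 * k + 1 ∈ A}

theorem mix_isMeas {δ : ℝ} (h0 : 0 ≤ δ) (h1 : δ ≤ 1) {ν : Set ℕ → ℝ} (h : IsMeas ν) :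
    IsMeas (mix δ ν) where
  nonneg := fun A => by
    unfold mix
    have a1 := h.nonneg {k | 2 * k ∈ A}
    have a2 := h.nonneg {k | 2 * k + 1 ∈ A}
    have : 0 ≤ 1 - δ := by linarith
    positivity
  le_one := fun A => by
    unfold mix
    have a1 := h.le_one {k | 2 * k ∈ A}
    have a2 := h.le_one {k | 2 * k + 1 ∈ A}
    nlinarith
  union := fun A B hAB => by
    unfold mix
    have e1 : {k | 2 * k ∈ A ∪ B} = {k | 2 * k ∈ A} ∪ {k | 2 * k ∈ B} := rfl
    have e2 : {k | 2 * k + 1 ∈ A ∪ B} = {k | 2 * k + 1 ∈ A} ∪ {k | 2 * k + 1 ∈ B} := rfl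
    rw [e1, e2, h.union, h.union]
    · ring
    · rw [Set.disjoint_left] at hAB ⊢
      intro k hk; exact hAB hk
    · rw [Set.disjoint_left] at hAB ⊢
      intro k hk; exact hAB hk
  finite := fun A hA => by
    unfold mix
    rw [h.finite {k | 2 * k ∈ A}, h.finite {k | 2 * k + 1 ∈ A}]
    · ring
    · exact hA.preimage (fun a _ b _ hab => by simpa using hab)
    · exact hA.preimage (fun a _ b _ hab => by simpa using hab)

theorem mix_univ (δ : ℝ) (ν : Set ℕ → ℝ) : mix δ ν Set.univ = ν Set.univ := by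
  unfold mix
  have e1 : {k : ℕ | 2 * k ∈ Set.univ} = Set.univ := by ext; simp
  have e2 : {k : ℕ | 2 * k + 1 ∈ Set.univ} = Set.univ := by ext; simp
  rw [e1, e2]; ring

theorem mix_strongQ {δ : ℝ} (h0 : 0 ≤ δ) (h1 : δ ≤ 1) {ν : Set ℕ → ℝ} {ε : ℝ}
    (h : IsStrongQ ε ν) : IsStrongQ ((1 - δ) * ε) (mix δ ν) := by
  refine ⟨mix_isMeas h0 h1 h.1, fun P hP => ?_⟩
  obtain ⟨A', hA', hA'2⟩ := h.2 (fun n => {k | 2 * k ∈ P n}) ⟨fun n =>
      (hP.1 n).preimage (fun a _ b _ hab => by simpa using hab), fun m n hmn => by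
        have := hP.2.1 m n hmn
        rw [Set.disjoint_left] at this ⊢
        intro k hk; exact this hk, by
        ext k
        simp only [Set.mem_iUnion, Set.mem_univ, iff_true]
        have : 2 * k ∈ ⋃ n, P n := by rw [hP.2.2]; trivial
        simpa using this⟩
  refine ⟨(fun k => 2 * k) '' A', ?_, ?_⟩
  · intro n
    rintro _ ⟨⟨a, ha, rfl⟩, hm⟩ _ ⟨⟨b, hb, rfl⟩, hm'⟩
    have := hA' n ⟨ha, hm⟩ ⟨hb, hm'⟩
    rw [this]
  · unfold mix
    have e1 : {k | 2 * k ∈ (fun k => 2 * k) '' A'} = A' := by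
      ext k
      simp
    have e2 : {k | 2 * k + 1 ∈ (fun k => 2 * k) '' A'} = ∅ := by
      ext k
      simp only [Set.mem_image, Set.mem_ofPred_eq, Set.mem_empty_iff_false, iff_false, not_exists]
      rintro x ⟨_, hx⟩
      omega
    rw [e1, e2, h.1.empty, mul_zero, add_zero]
    have : 0 ≤ 1 - δ := by linarith
    exact mul_le_mul_of_nonneg_left hA'2 this

theorem xs_even (k : ℕ) : xs (2 * k) = ((1 : ℝ) • e k, (1 : ℝ) • e k) := by
  unfold xs
  have h1 : 2 * k % 2 = 0 := by omega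
  have h2 : 2 * k / 2 = k := by omega
  rw [h1, h2]; simp

theorem xs_odd (k : ℕ) : xs (2 * k + 1) = ((-1 : ℝ) • e k, (1 : ℝ) • e k) := by
  unfold xs
  have h1 : (2 * k + 1) % 2 = 1 := by omega
  have h2 : (2 * k + 1) / 2 = k := by omega
  rw [h1, h2]; simp

/-- summation functional on the second coordinate -/
noncomputable def sumL : StrongDual ℝ (l1 × l1) :=
  LinearMap.mkContinuous
    { toFun := fun w => ∑' i, w.2 i
      map_add' := by
        intro f g
        rw [Prod.snd_add, lp.coeFn_add]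
        exact (l1_summable f.2).of_abs.tsum_add (l1_summable g.2).of_abs
      map_smul' := by
        intro c f
        rw [Prod.smul_snd, lp.coeFn_smul, RingHom.id_apply, smul_eq_mul]
        exact tsum_mul_left }
    1 (by
      intro w
      rw [one_mul]
      refine le_trans ?_ (norm_snd_le w)
      rw [l1_norm]
      exact norm_tsum_le_tsum_norm (l1_summable w.2))

theorem sumL_xs (n : ℕ) : sumL (xs n) = 1 := by
  change ∑' i, (xs n).2 i = 1
  unfold xs
  simp only [one_smul]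
  exact (tsum_eq_single (n / 2) (fun i hi => e_ne (n / 2) i hi)).trans (e_self _)

theorem sumL_norm : ‖sumL‖ ≤ 1 := LinearMap.mkContinuous_norm_le _ zero_le_one _

/-- The key computation. -/
theorem key {δ : ℝ} (h0 : 0 ≤ δ) (h1 : δ ≤ 1 / 2) {ν : Set ℕ → ℝ} (h : IsMeas ν) :
    ∃ g G : Bidual (l1 × l1), IsMuLim (mix δ ν) xs g ∧ bnorm g = ν Set.univ ∧
      ∃ y : l1 × l1, IsSum y g G ∧ ‖y‖ = 1 ∧
        bnorm G ≤ 1 + (1 - 2 * δ) * ν Set.univ := by
  obtain ⟨m, hm, hmn⟩ := exists_functional h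
  set m0 := ν Set.univ with hm0
  have hm00 : 0 ≤ m0 := h.nonneg _
  have hm01 : m0 ≤ 1 := h.le_one _
  let mu : StrongDual ℝ Linf := (1 - δ) • m.comp (compL (fun k => 2 * k)) +
    δ • m.comp (compL (fun k => 2 * k + 1))
  have hmu : ∀ f, mu f = (1 - δ) * m (compL (fun k => 2 * k) f) +
      δ * m (compL (fun k => 2 * k + 1) f) := fun f => rfl
  let g : StrongDual ℝ (StrongDual ℝ (l1 × l1)) := mu.comp (Tstar xs xs_LOrth.1)
  have hg : ∀ φ, g φ = mu (Tstar xs xs_LOrth.1 φ) := fun φ => rfl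
  have hrep : Represents mu (mix δ ν) := by
    intro A f hf
    rw [hmu, hm {k | 2 * k ∈ A} _ (fun n => ?_), hm {k | 2 * k + 1 ∈ A} _ (fun n => ?_)]
    · rfl
    · rw [compL_apply, hf]; rfl
    · rw [compL_apply, hf]; rfl
  have hlim : IsMuLim (mix δ ν) xs g :=
    ⟨toInt mu, toInt_isIntegral hrep, fun φ => (toInt_coe mu (Tstar xs xs_LOrth.1 φ)).symm⟩
  -- combined sequence
  let w : ℕ → l1 × l1 := fun k => ((1 - 2 * δ) • e k, (1 : ℝ) • e k)
  have hgw : ∀ φ : StrongDual ℝ (l1 × l1), ∃ W : Linf, (∀ k, W k = φ (w k)) ∧ g φ = m W := by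
    intro φ
    refine ⟨(1 - δ) • compL (fun k => 2 * k) (Tstar xs xs_LOrth.1 φ) +
      δ • compL (fun k => 2 * k + 1) (Tstar xs xs_LOrth.1 φ), fun k => ?_, ?_⟩
    · rw [lp.coeFn_add, Pi.add_apply, lp.coeFn_smul, lp.coeFn_smul, Pi.smul_apply, Pi.smul_apply,
        compL_apply, compL_apply, Tstar_apply, Tstar_apply, xs_even, xs_odd, ← map_smul,
        ← map_smul, ← map_add]
      congr 1
      simp only [w, Prod.smul_mk, Prod.mk_add_mk, smul_smul, ← add_smul]
      congr 2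
      · ring
      · ring
    · rw [hg, hmu, map_add, map_smul, map_smul]; rfl
  have hwn : ∀ k, ‖w k‖ ≤ 1 := by
    intro k
    simp only [w]
    rw [Prod.norm_def]
    simp only [norm_smul, norm_e, mul_one]
    apply max_le
    · rw [Real.norm_eq_abs, abs_le]; constructor <;> linarith
    · simp
  have hgle : ‖g‖ ≤ m0 := by
    apply ContinuousLinearMap.opNorm_le_bound _ hm00
    intro φ
    obtain ⟨W, hW, hgW⟩ := hgw φ
    rw [hgW]
    calc ‖m W‖ ≤ ‖m‖ * ‖W‖ := m.le_opNorm W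
      _ ≤ m0 * ‖φ‖ := by
        apply mul_le_mul hmn _ (norm_nonneg _) hm00
        apply lp.norm_le_of_forall_le (norm_nonneg _)
        intro k
        rw [hW]
        calc ‖φ (w k)‖ ≤ ‖φ‖ * ‖w k‖ := φ.le_opNorm _
          _ ≤ ‖φ‖ * 1 := by gcongr; exact hwn k
          _ = ‖φ‖ := mul_one _
  have hgge : m0 ≤ ‖g‖ := by
    have h2 : g sumL = m0 := by
      rw [hg, hrep Set.univ _ (fun n => ?_), mix_univ]
      rw [Tstar_apply, sumL_xs]
      simp
    calc m0 = g sumL := h2.symm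
      _ ≤ ‖g sumL‖ := le_abs_self _
      _ ≤ ‖g‖ * ‖sumL‖ := g.le_opNorm _
      _ ≤ ‖g‖ * 1 := by gcongr; exact sumL_norm
      _ = ‖g‖ := mul_one _
  refine ⟨g, NormedSpace.inclusionInDoubleDual ℝ (l1 × l1) (e 0, 0) + g, hlim,
    le_antisymm hgle hgge, (e 0, 0), fun φ => rfl, ?_, ?_⟩
  · rw [Prod.norm_def]
    simp [norm_e]
  · have hB0 : 0 ≤ 1 + (1 - 2 * δ) * m0 := by
      have : 0 ≤ (1 - 2 * δ) * m0 := mul_nonneg (by linarith) hm00
      linarith
    apply ContinuousLinearMap.opNorm_le_bound _ hB0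
    intro φ
    have hval : (NormedSpace.inclusionInDoubleDual ℝ (l1 × l1) (e 0, 0) + g) φ =
        φ (e 0, 0) + g φ := rfl
    rw [hval]
    obtain ⟨W, hW, hgW⟩ := hgw φ
    set B := 1 + (1 - 2 * δ) * m0 with hB
    -- pointwise bound
    have hpt : ∀ k, |φ (e 0, 0)| + m0 * |φ (w k)| ≤ B * ‖φ‖ := by
      intro k
      obtain ⟨s, hs, hs2⟩ : ∃ s : ℝ, |s| = 1 ∧ s * φ (e 0, 0) = |φ (e 0, 0)| := by
        rcases le_total 0 (φ (e 0, 0)) with hh | hh
        · exact ⟨1, by simp, by rw [abs_of_nonneg hh, one_mul]⟩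
        · exact ⟨-1, by simp, by rw [abs_of_nonpos hh]; ring⟩
      obtain ⟨t, ht, ht2⟩ : ∃ t : ℝ, |t| = 1 ∧ t * φ (w k) = |φ (w k)| := by
        rcases le_total 0 (φ (w k)) with hh | hh
        · exact ⟨1, by simp, by rw [abs_of_nonneg hh, one_mul]⟩
        · exact ⟨-1, by simp, by rw [abs_of_nonpos hh]; ring⟩
      have h3 : |φ (e 0, 0)| + m0 * |φ (w k)| =
          φ (s • ((e 0, 0) : l1 × l1) + (m0 * t) • w k) := by
        rw [map_add, map_smul, map_smul, smul_eq_mul, smul_eq_mul, hs2, mul_assoc, ht2]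
      have h4 : ‖s • ((e 0, 0) : l1 × l1) + (m0 * t) • w k‖ ≤ B := by
        simp only [w]
        rw [Prod.smul_mk, Prod.smul_mk, Prod.mk_add_mk, Prod.norm_def]
        simp only
        apply max_le
        · refine (norm_add_le _ _).trans ?_
          rw [norm_smul_e s hs, norm_smul, norm_smul, norm_e, mul_one, norm_mul,
            Real.norm_of_nonneg hm00, Real.norm_eq_abs, ht, mul_one,
            Real.norm_of_nonneg (show 0 ≤ 1 - 2 * δ by linarith), hB]
          linarith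
        · rw [smul_zero, zero_add, norm_smul, norm_smul, norm_e, norm_mul,
            Real.norm_of_nonneg hm00, Real.norm_eq_abs, ht, hB]
          have : 0 ≤ (1 - 2 * δ) * m0 := mul_nonneg (by linarith) hm00
          simp only [norm_one, mul_one]
          linarith
      rw [h3]
      calc φ (s • ((e 0, 0) : l1 × l1) + (m0 * t) • w k)
          ≤ ‖φ (s • ((e 0, 0) : l1 × l1) + (m0 * t) • w k)‖ := le_abs_self _
        _ ≤ ‖φ‖ * ‖s • ((e 0, 0) : l1 × l1) + (m0 * t) • w k‖ := φ.le_opNorm _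
        _ ≤ ‖φ‖ * B := by gcongr
        _ = B * ‖φ‖ := mul_comm _ _
    have hC : 0 ≤ B * ‖φ‖ - |φ (e 0, 0)| := by
      have h5 := hpt 0
      have h6 : 0 ≤ m0 * |φ (w 0)| := by positivity
      linarith
    have hgb : |g φ| ≤ B * ‖φ‖ - |φ (e 0, 0)| := by
      rw [hgW]
      calc |m W| = ‖m W‖ := rfl
        _ ≤ ‖m‖ * ‖W‖ := m.le_opNorm W
        _ ≤ m0 * ‖W‖ := by gcongr
        _ = ‖m0 • W‖ := by rw [norm_smul, Real.norm_of_nonneg hm00]
        _ ≤ B * ‖φ‖ - |φ (e 0, 0)| := by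
          apply lp.norm_le_of_forall_le hC
          intro k
          rw [lp.coeFn_smul, Pi.smul_apply, hW, norm_smul, Real.norm_of_nonneg hm00,
            Real.norm_eq_abs]
          linarith [hpt k]
    calc ‖φ (e 0, 0) + g φ‖ ≤ |φ (e 0, 0)| + |g φ| := abs_add_le _ _
      _ ≤ B * ‖φ‖ := by linarith

theorem StrongQ_univ {ε : ℝ} {ν : Set ℕ → ℝ} (h : IsStrongQ ε ν) : ε ≤ ν Set.univ := by
  obtain ⟨A, _, hA⟩ := h.2 (fun n => {n}) ⟨fun n => Set.finite_singleton n, fun m n hmn => by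
    simpa using hmn, by ext n; simp⟩
  exact hA.trans (h.1.mono (Set.subset_univ A))

theorem main (κ : ℝ → ℝ) (hκ : ∀ ε, 0 < ε → 0 < κ ε) :
    ¬ Inequality κ ↔ ∃ ε : ℝ, 0 < ε ∧ ∃ ν : Set ℕ → ℝ, IsStrongQ ε ν := by
  constructor
  · intro h
    by_contra hne
    apply h
    intro ε hε μ hμ
    exact absurd ⟨ε, hε, μ, hμ⟩ hne
  · rintro ⟨ε, hε, ν, hν⟩ hineq
    obtain ⟨g, G, hg, hgn, y, hyG, hy, hyg⟩ := key (δ := 1 / 2) (by norm_num) le_rfl hν.1
    have hm0 : 0 < ν Set.univ := lt_of_lt_of_le hε (StrongQ_univ hν)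
    have hq := mix_strongQ (δ := 1 / 2) (by norm_num) (by norm_num) hν
    have hε' : 0 < (1 - 1 / 2 : ℝ) * ε := by positivity
    have := hineq _ hε' _ hq (l1 × l1) xs g G y xs_LOrth hg hyG
    rw [hy, hgn] at this
    have hk := hκ _ hε'
    have h2 : (1 - 2 * (1 / 2 : ℝ)) * ν Set.univ = 0 := by ring
    rw [h2] at hyg
    have h3 : 0 < κ ((1 - 1 / 2) * ε) * ν Set.univ := by positivity
    linarith

theorem IsStrongQ.mono {ε ε' : ℝ} {ν : Set ℕ → ℝ} (h : IsStrongQ ε ν) (hε : ε' ≤ ε) :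
    IsStrongQ ε' ν :=
  ⟨h.1, fun P hP => by
    obtain ⟨A, hA, hA2⟩ := h.2 P hP
    exact ⟨A, hA, hε.trans hA2⟩⟩

theorem main2 (ε : ℝ) (h0 : 0 < ε) (h1 : ε < 1) (hQ : ∃ ν : Set ℕ → ℝ, IsStrongQ 1 ν) :
    ∃ μ : Set ℕ → ℝ, IsStrongQ ε μ ∧ μ Set.univ = 1 ∧
      ∃ (X : Type) (_ : NormedAddCommGroup X) (_ : NormedSpace ℝ X) (_ : CompleteSpace X)
        (x : ℕ → X) (g G : Bidual X) (y : X),
        IsLOrthogonal x ∧ IsMuLim μ x g ∧ IsSum y g G ∧ bnorm G < ‖y‖ + ε * bnorm g := by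
  obtain ⟨ν, hν⟩ := hQ
  have hu : ν Set.univ = 1 := le_antisymm (hν.1.le_one _) (StrongQ_univ hν)
  have hm : 1 / 2 ≤ max ε (1 / 2) := le_max_right _ _
  have hm2 : ε ≤ max ε (1 / 2) := le_max_left _ _
  have hm3 : max ε (1 / 2) < 1 := max_lt h1 (by norm_num)
  have hq := mix_strongQ (δ := 1 - max ε (1 / 2)) (by linarith) (by linarith) hν
  obtain ⟨g, G, hg, hgn, y, hyG, hy, hyg⟩ :=
    key (δ := 1 - max ε (1 / 2)) (by linarith) (by linarith) hν.1
  refine ⟨mix (1 - max ε (1 / 2)) ν, hq.mono (by linarith), by rw [mix_univ, hu], l1 × l1,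
    inferInstance, inferInstance, inferInstance, xs, g, G, y, xs_LOrth, hg, hyG, ?_⟩
  rw [hy, hgn, hu]
  rw [hu] at hyg
  rcases le_total ε (1 / 2) with hh | hh
  · rw [max_eq_right hh] at hyg
    linarith
  · rw [max_eq_left hh] at hyg
    linarith

end Pool.Agent.Helper42.QMeas
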